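import Mathlib
import Pool.Agent.Helper6.RC.GStmt

set_option autoImplicit false

/-!
# Surface subgroups and the second homology of graph products

Let `P` be the graph product of nontrivial groups `G v` over a finite graph `Γ` and `K = KG Γ G`
the kernel of the projection of `P` to the product of the groups `G v`. Then the second rational
homology of `K` is spanned by the classes of the injective surface groups of positive genus which
are conjugate in `P` into the subgroup generated by the vertex groups of an induced cycle of `Γ` of
length at least four. Consequently Q1 is true for every group which contains `K` as a subgroup of
finite index; when the vertex groups are finite these include all subgroups of `P` containing `K`.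
-/

namespace Pool.Agent.Results.MP_b3e994_al.GraphProducts

open RC SH

/-- **The second homology of graph products and surface subgroups.** -/
theorem result {V : Type} [Fintype V] [DecidableEq V] (Γ : SimpleGraph V) (G : V → Type)
    [∀ v, Group (G v)] [∀ v, Nontrivial (G v)] :
    Spanned (KG Γ G) (cycSub Γ G) ∧ Q1Above (KG Γ G) ∧
      ((∀ v, Finite (G v)) → ∀ L : Subgroup (GP Γ G), KG Γ G ≤ L → Q1 L) :=
  ⟨spanned_KG Γ G, q1Above_KG Γ G, fun hfin L hL => q1_between Γ G hfin L hL⟩

end Pool.Agent.Results.MP_b3e994_al.GraphProducts
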