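import Pool.Agent.Helper66.SH.Pres4

/-!
# MP_b3e994_al: Q1 for groups presented by products of commutators, each with one generator that
is visible in homology

`SurfGrp g` is the fundamental group of the closed oriented surface of genus `g`, `fundCl g` its
fundamental class, `H2` is second rational homology (bar complex), and `Q1 G` says that every
class of `H2 G` is virtually represented by a sum of closed surface subgroups.
-/

open SH

namespace Pool.Agent.Results.MP_b3e994_al.HandleRelators

/-- Let `G` be the group with generators `X` and relators
`r_j = [a_j, t δ_j(w)] [x_j0(w), y_j0(w)] [x_j1(w), y_j1(w)] ⋯` (`j` in `J`, with `g_j` commutators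
after the first one) and `u_l` (`l` in `L`). Here `t, a_j, u_l` and `w_z` (`z` in `Z`) are words in
`X`, and `δ_j, x_ji, y_ji` are words in the letters of `Z`, evaluated at the `w_z`. Suppose that
the exponent sum vectors of all the words `t, a_j, w_z, u_l` together are linearly independent
over `ℚ`. Then

* for every `j`, the map from the surface group of genus `g_j + 1` to `G` given by the handles of
  `r_j` is injective if and only if the `2 g_j` words `x_ji, y_ji` are free generators of a
  subgroup of the free group on `Z`;
* the classes of these surfaces are a basis of `H₂(G; ℚ)`;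
* if the condition on the `x_ji, y_ji` holds for every `j`, then every class of `H₂(Γ; ℚ)` is
  virtually represented by a sum of closed surface subgroups, for `Γ = G` and for every group `Γ`
  which contains `G` as a subgroup of finite index. -/
theorem result (X J L Z : Type) (g : J → ℕ) (x y : ∀ j, Fin (g j) → FreeGroup Z)
    (δ : J → FreeGroup Z) (t : FreeGroup X) (a : J → FreeGroup X) (w : Z → FreeGroup X)
    (u : L → FreeGroup X) (hind : LinearIndependent ℚ fun i => abv (vis t a w u i)) :
    (∀ j, Function.Injective (hS g x y δ t a w u j) ↔ HFree (x j) (y j)) ∧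
    (∃ b : Module.Basis J ℚ (H2 (HG g x y δ t a w u)),
      ∀ j, b j = h2 (hS g x y δ t a w u j) (fundCl (g j + 1))) ∧
    ((∀ j, HFree (x j) (y j)) → ∀ (Γ : Type) [Group Γ] (ι : HG g x y δ t a w u →* Γ),
      Function.Injective ι → ι.range.FiniteIndex → Q1 Γ) := by
  refine ⟨fun j => ⟨free_of_hS_inj g x y δ t a w u j, hS_inj g x y δ t a w u hind j⟩,
    ⟨Module.Basis.mk (h_indep g x y δ t a w u hind) (h_span g x y δ t a w u hind).ge,
    fun j => Module.Basis.mk_apply _ _ j⟩, ?_⟩
  intro hfree Γ _ ι hι hf
  exact Q1_of_finiteIndex ι.range
    (Q1_of_equiv (MonoidHom.ofInjective hι) (h_Q1 g x y δ t a w u hind hfree))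

end Pool.Agent.Results.MP_b3e994_al.HandleRelators
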